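import Pool.Agent.H65.AP.Final

/-!
MP_b23d8d_ag (the Gross-Deligne conjecture), Q1: the conjecture for the tensor category generated by
the members of a family of structures with automorphisms is equivalent to its relation for products
over the family of the determinants of the eigenspaces of the automorphisms.

A polarised Betti, de Rham and Hodge structure `S` is settled (`GD.Settled`) if the conjecture of
Gross and Deligne, for all abelian number fields, holds for all admissible triples in the structures
which `S` generates under tensor products, direct sums and quotients. (Substructures and structures
with an injective morphism to a polarised structure are quotients of it.) The settled part
(`GD.setPart`) of a structure is the span of the images of the morphisms from structures generated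
by settled ones.

A family (`GD.Family`) consists of finitely many polarised structures `S k` with integers `m k ≠ 0`
and an action of a group `G`. Its relation (`GD.Family.Rel`) is the relation of Gross and Deligne
for the products over `k`, with exponents `m k`, of the determinants of periods of the eigenspaces
of the elements of finite order of `G`. The member `S n` is good (`GD.Family.IsGood`) for a number
field `F` with an embedding `e` if every action of an imaginary cyclic subfield `K` of `F` on a
factor of `S n` through the centre of the endomorphisms has a restriction to some nonzero factor of
this factor which is given by the rational group algebra in the following sense: for every `a` in
`K` some rational combination of elements of finite order of `G` acts on `S n` as `a` (on the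
factor, and as zero on its complement), and acts as zero on all other members, everything modulo
endomorphisms which are symmetric for a polarisation (and their rational combinations) and modulo
the settled parts.

Theorem. (I) Let `F` be an abelian number field with an embedding `e`. Then the conjecture holds for
all admissible triples with multiplication by `F` in all structures which are generated by settled
structures and by the members `X.S n` of families `X` (all families and all members at the same
time) such that `X` satisfies the relation and `X.S n` is good for `e`. (II) Let all members of the
family `X` be good for all abelian number fields. Then all its members are settled if and only if
`X` satisfies the relation.

Nothing is assumed: being good is a condition on the endomorphisms of the structures, and the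
relation is a condition on the products only. The conjecture for a triple in the generated
structures, for instance in a tensor product of many members, concerns one period and not a product
of determinants over the family.

Geometry (not in Lean). Let `X` be a smooth projective variety of dimension `d` over the algebraic
numbers with a group `G` of automorphisms which fix an ample class, let `S k` be the primitive
cohomology of degree `k ≤ d`, and `m k = (-1) ^ k (d - k + 1)`. By the Lefschetz decomposition the
relation is the one for the alternating product over the degrees of the cohomology, which is the
theorem of J. Fresán (Periods of Hodge structures and special values of the gamma function,
Inventiones 208 (2017)), applied to `X` and, in the Grothendieck group of varieties with an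
automorphism (F. Bittner), to the quotients of `X` by powers of the automorphism. By Deligne (Cycles
de Hodge absolus et périodes des intégrales des variétés abéliennes) and Anderson (Cyclotomy and an
extension of the Taniyama group) all structures of abelian type, in particular all first cohomology
groups and Tate structures, are settled. So the conjecture holds for all admissible triples in the
cohomology of all products of varieties with good or settled primitive cohomology, and of all smooth
projective varieties which are dominated by these. Examples are the cyclic covers, of any degree
`N`, of varieties with settled cohomology (for instance of abelian varieties) branched along smooth
ample divisors for which the centre of the endomorphisms of the new part of the cohomology of middle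
degree is contained in `ℚ[μ_N]`; these are settled again, so the construction may be repeated.
-/

noncomputable section

namespace Pool.Agent.Results.MP_b23d8d_ag.AlternatingProducts

theorem result :
    (∀ (F : Type) [Field F] [NumberField F] (e : F →+* ℂ), (∃ d, GD.LiesIn e d) →
      GD.TriplesFor (GD.Gen fun S => GD.Settled S ∨
        ∃ (X : GD.Family) (n : X.ι), X.Rel ∧ X.IsGood n e ∧ S = X.S n) e) ∧
    (∀ X : GD.Family, (∀ (n : X.ι) (F : Type) [Field F] [NumberField F] (e : F →+* ℂ),
      (∃ d, GD.LiesIn e d) → X.IsGood n e) → ((∀ k, GD.Settled (X.S k)) ↔ X.Rel)) :=
  ⟨fun _ _ _ e he => GD.triples_of_good e he, fun X h => X.settled_iff h⟩

end Pool.Agent.Results.MP_b23d8d_ag.AlternatingProducts
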