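import Mathlib
import Pool.Agent.H27.GD.Bound

/-!
The Gross-Deligne conjecture as the rationality of Hodge classes on bounded powers.
-/

set_option autoImplicit false

namespace Pool.Agent.Results.MP_b23d8d_ag.BoundedHodgeClasses

/-- Let `C` be any class of polarised Betti, de Rham and Hodge structures and `CM` a subclass
which contains weight one structures with complex multiplication of every type by every imaginary
cyclic field. The Gross-Deligne conjecture for all structures generated by `C` is equivalent to
its case of weight one in `CM` together with the rationality on the de Rham side of the Hodge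
classes with multiplication by an imaginary cyclic field `K` on `S ^ ⊗ n ⊗ Z 1 ⊗ ... ⊗ Z r`,
where `S` is in `C`, the field `K` acts through the centre of the endomorphisms on a simple
constituent `M` of `S` with `n * [K : ℚ] = dim M`, `r = n * wt S` and the `Z j` are in `CM`. -/
theorem result (C CM : GD.Str → Prop) (hC : ∀ S, C S → Nonempty (GD.Pol S))
    (hsub : ∀ Z, CM Z → C Z) (hCM : GD.HasCM CM) :
    GD.GrossDeligne (GD.Gen C) ↔ GD.WeightOne CM ∧ GD.BoundedHodge CM C :=
  GD.DT.bounded_hodge hCM hsub hC

end Pool.Agent.Results.MP_b23d8d_ag.BoundedHodgeClasses
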