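import Pool.Agent.H26.DT.Final

/-!
MP_b23d8d_ag (the Gross-Deligne conjecture), Q1: determinants of the simple constituents suffice.

For any class `C` of polarised Betti, de Rham and Hodge structures and an abelian number field `F`
the following are equivalent.

* The conjecture for all admissible triples with multiplication by `F` in all the structures
  generated by `C` under tensor products, direct sums and quotients.
* The conjecture for the determinants over `K` of the simple constituents `M` of the members of
  `C`, for the imaginary cyclic fields `K` in `F` which act on `M` through the centre of its
  endomorphism algebra.
* The conjecture for the admissible triples with multiplication by imaginary cyclic fields `K` in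
  `F` in the tensor powers `S ^ ⊗ n` of the members `S` of `C`, `n * [K : ℚ] ≤ dim S`.
-/

noncomputable section

namespace Pool.Agent.Results.MP_b23d8d_ag.DeterminantsSuffice

theorem result (C : GD.Str → Prop) (hP : ∀ S, C S → Nonempty (GD.Pol S))
    (F : Type) [Field F] [NumberField F] (e : F →+* ℂ) (he : ∃ d, GD.LiesIn e d) :
    [GD.TriplesFor (GD.Gen C) e, GD.DetFor C e, GD.PowFor C e].TFAE :=
  GD.determinants_suffice C hP F e he

end Pool.Agent.Results.MP_b23d8d_ag.DeterminantsSuffice
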