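import Pool.Agent.H26.LN.Main
import Pool.Agent.H26.LN.Fermat

/-!
MP_b23d8d_ag (the Gross-Deligne conjecture), Q1: a class of structures with the conjecture for all
admissible triples, which is closed under tensor products, sums, quotients, Tate twists, limits of
variations over curves, constant parts of variations, and transfer between variations.

Let `F` be an abelian number field. The class `InClosure e` is the smallest class of Betti, de Rham
and Hodge structures with the following properties.

* It contains the polarised structures of gamma type (spanned by vectors over `ℚ(μ_d)` whose
  conjugates are pure, and de Rham up to the gamma products). By the third part of the theorem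
  structures with the Betti, Hodge and period data of the pieces of the Fermat varieties of all
  dimensions and degrees, given by products of beta integrals (`GD.FermatType`), exist in the class.
* It is closed under tensor products, direct sums, quotients and Tate twists.
* (i) It contains every polarised structure `S` with the following property. For all imaginary
  cyclic fields `K` in `F`, every action of `K` on a factor of `S` through the centre of the
  endomorphisms of `S` is good on some factor `M ≠ 0` of this factor: the relation of Gross and
  Deligne holds for the determinants of periods of `M` over `K`, or the action on `M` is flat in a
  polarised variation over a curve over the algebraic numbers of which `S` is a fibre, with a limit,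
  at a point or at a cusp with unipotent monodromy, whose graded pieces are polarised and lie in the
  class.
* (ii) It contains the constant parts of variations with a limit in the class.
* (iii) It contains every fibre `P` of a polarised variation which is isomorphic, as a local system
  of vector spaces over a subfield `K` of `F`, to a second variation whose fibre `Q` at the same
  point lies in the class, if the isomorphism is unique up to scalars on the parts on which `K` acts
  through one embedding (Schur's lemma, for irreducible parts) and adds integers `n τ ≥ 0` to the
  Hodge types of these parts, and if the action of `K` on `P` is good or `K` is real. Nothing is
  assumed on the de Rham data of the isomorphism.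

Theorem. All admissible triples with multiplication by `F` in all structures of the class satisfy
the relation of Gross and Deligne. A polarised structure lies in the class if and only if the
relation holds for all admissible triples with multiplication by `F` in all structures which it
generates under tensor products, direct sums and quotients. So the class of these structures is
stable under (i), (ii) and (iii).

Geometry (not in Lean). The class contains the cohomology of all powers of a smooth hypersurface
`y ^ d = f(x)` over the algebraic numbers if the centre of the endomorphisms of its primitive
cohomology lies in `ℚ[μ_d]`, by deformation to the Fermat hypersurface. It contains all abelian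
varieties over the algebraic numbers (by deformation to sums of structures of rank one over `K`),
all K3 surfaces (by transfer with `K = ℚ` from the Kuga-Satake varieties), and all smooth surfaces
`y ^ 3 = f₆(x)`, `y ^ 5 = f₅(x)` (by transfer from the abelian varieties which are their half
twists).
-/

noncomputable section

namespace Pool.Agent.Results.MP_b23d8d_ag.LimitsAndTransfer

theorem result (F : Type) [Field F] [NumberField F] (e : F →+* ℂ) (he : ∃ d, GD.LiesIn e d) :
    (∀ R, GD.InClosure e R → GD.HasRel R e) ∧
    (∀ S, Nonempty (GD.Pol S) →
      (GD.InClosure e S ↔ ∀ R, GD.Gen (fun X => X = S) R → GD.HasRel R e)) ∧
    ∀ (N n : ℕ) [NeZero N] (a : ℕ → ZMod N), (∀ i < n + 2, a i ≠ 0) →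
      ∑ i ∈ Finset.range (n + 2), a i = 0 →
      ∃ S, Nonempty (GD.Pol S) ∧ GD.FermatType S N n a ∧ Module.finrank ℂ S.W = N.totient ∧
        GD.InClosure e S := by
  refine ⟨fun _ hR => GD.hasRel_of_inClosure he hR, fun _ ⟨P⟩ => GD.inClosure_iff he P,
    fun N n _ a ha hs => ?_⟩
  obtain ⟨S, h1, h2, h3, h4⟩ := GD.exists_fermat ha hs
  exact ⟨S, h1, h3, h4, fun C hC => hC.gamma S h1 h2⟩

end Pool.Agent.Results.MP_b23d8d_ag.LimitsAndTransfer
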